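import Mathlib

open Polynomial

namespace Pool.Agent.Results.MP_6bb0fd_an.Counter

/-- A real polynomial is hyperbolic if it is zero or all its complex zeros are real. -/
def Hyperbolic (p : ℝ[X]) : Prop := p = 0 ∨ ∀ z : ℂ, aeval z p = 0 → z.im = 0

/-- `T = ∑ Q k D ^ k`; on `f` only the terms with `k ≤ deg f` can be nonzero. -/
def Represents (Q : ℕ → ℝ[X]) (T : ℝ[X] →ₗ[ℝ] ℝ[X]) : Prop :=
  ∀ f : ℝ[X], T f = ∑ k ∈ Finset.range (f.natDegree + 1), Q k * derivative^[k] f

/-- Monotone coefficient sequences, with `degree 0 = ⊥`. -/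
def IsMonotoneOp (Q : ℕ → ℝ[X]) : Prop := ∀ k, Q k ≠ 0 → (Q k).degree ≤ (Q (k + 1)).degree

noncomputable def QQ (k : ℕ) : ℝ[X] :=
  C ((Complex.I ^ k).re / k.factorial) * X - C ((Complex.I ^ k).im / k.factorial)

noncomputable def T0 (f : ℝ[X]) : ℝ[X] :=
  ∑ k ∈ Finset.range (f.natDegree + 1), QQ k * derivative^[k] f

theorem taylor_formula (f : ℝ[X]) (z c : ℂ) : aeval (z + c) f =
    ∑ k ∈ Finset.range (f.natDegree + 1), c ^ k / k.factorial * aeval z (derivative^[k] f) := by
  set g := f.map (algebraMap ℝ ℂ) with hg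
  have hd : g.natDegree = f.natDegree := natDegree_map_eq_of_injective (algebraMap ℝ ℂ).injective _
  rw [← eval_map_algebraMap, ← hg, add_comm z c, ← taylor_eval, eval_eq_sum_range,
    natDegree_taylor, hd]
  apply Finset.sum_congr rfl
  intro k _
  rw [taylor_coeff, ← eval_map_algebraMap, ← iterate_derivative_map, ← hg,
    ← factorial_smul_hasseDeriv]
  have : (k.factorial : ℂ) ≠ 0 := by exact_mod_cast k.factorial_ne_zero
  rw [LinearMap.smul_apply, nsmul_eq_mul, eval_mul, eval_natCast]
  field_simp

theorem T0_eval (f : ℝ[X]) (z : ℂ) : aeval z (T0 f) =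
    ((z + Complex.I) * aeval (z + Complex.I) f + (z - Complex.I) * aeval (z - Complex.I) f) / 2 := by
  rw [sub_eq_add_neg z, taylor_formula, taylor_formula, Finset.mul_sum, Finset.mul_sum,
    ← Finset.sum_add_distrib, Finset.sum_div, T0, map_sum]
  apply Finset.sum_congr rfl
  intro k _
  have h1 : Complex.I ^ k = (Complex.I ^ k).re + (Complex.I ^ k).im * Complex.I :=
    (Complex.re_add_im _).symm
  have h2 : (-Complex.I) ^ k = (Complex.I ^ k).re - (Complex.I ^ k).im * Complex.I := by
    rw [← Complex.conj_I, ← map_pow]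
    generalize Complex.I ^ k = w
    apply Complex.ext <;> simp
  rw [h2]
  simp only [QQ, map_mul, map_sub, aeval_C, aeval_X, Complex.coe_algebraMap]
  generalize (Complex.I ^ k).re = a at *
  generalize (Complex.I ^ k).im = b at *
  rw [h1]
  push_cast
  linear_combination (-(b : ℂ) / (k.factorial) * aeval z (derivative^[k] f)) * Complex.I_mul_I

theorem ext_aeval {p q : ℝ[X]} (h : ∀ z : ℂ, aeval z p = aeval z q) : p = q := by
  apply map_injective (algebraMap ℝ ℂ) (algebraMap ℝ ℂ).injective
  apply Polynomial.funext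
  intro z
  rw [eval_map_algebraMap, eval_map_algebraMap, h]

noncomputable def TT : ℝ[X] →ₗ[ℝ] ℝ[X] where
  toFun := T0
  map_add' f g := ext_aeval fun z => by simp only [map_add, T0_eval]; ring
  map_smul' c f := ext_aeval fun z => by
    simp only [map_smul, T0_eval, RingHom.id_apply, Complex.real_smul]; ring

theorem prod_le (m : Multiset ℂ) (hm : ∀ r ∈ m, r.im = 0) (u v : ℂ) (h1 : u.re = v.re)
    (h2 : u.im ^ 2 ≤ v.im ^ 2) : ‖(m.map (u - ·)).prod‖ ≤ ‖(m.map (v - ·)).prod‖ := by
  induction m using Multiset.induction_on with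
  | empty => simp
  | cons a m ih =>
    simp only [Multiset.map_cons, Multiset.prod_cons, norm_mul]
    have ha := hm a (Multiset.mem_cons_self _ _)
    have h3 : ‖u - a‖ ≤ ‖v - a‖ := by
      rw [← sq_le_sq₀ (norm_nonneg _) (norm_nonneg _), Complex.sq_norm, Complex.sq_norm,
        Complex.normSq_apply, Complex.normSq_apply]
      simp only [Complex.sub_re, Complex.sub_im, h1, ha]
      nlinarith
    exact mul_le_mul h3 (ih fun r hr' => hm r (Multiset.mem_cons_of_mem hr')) (norm_nonneg _)
      (norm_nonneg _)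

theorem key (f : ℝ[X]) (hf : ∀ z : ℂ, aeval z f = 0 → z.im = 0) (u v : ℂ) (h1 : u.re = v.re)
    (h2 : u.im ^ 2 < v.im ^ 2) : ‖u * aeval u f‖ < ‖v * aeval v f‖ := by
  have hv : aeval v f ≠ 0 := fun h => by
    have := hf v h
    rw [this] at h2
    nlinarith [sq_nonneg u.im]
  have h3 : ‖aeval u f‖ ≤ ‖aeval v f‖ := by
    have hs : (f.map (algebraMap ℝ ℂ)).Splits := IsAlgClosed.splits _
    rw [← eval_map_algebraMap, ← eval_map_algebraMap, hs.eval_eq_prod_roots u,
      hs.eval_eq_prod_roots v, norm_mul, norm_mul]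
    apply mul_le_mul_of_nonneg_left _ (norm_nonneg _)
    refine prod_le _ (fun r hr => hf r ?_) u v h1 h2.le
    have := (mem_roots'.1 hr).2
    rwa [IsRoot.def, eval_map_algebraMap] at this
  have h4 : ‖u‖ < ‖v‖ := by
    rw [← sq_lt_sq₀ (norm_nonneg _) (norm_nonneg _), Complex.sq_norm, Complex.sq_norm,
      Complex.normSq_apply, Complex.normSq_apply, h1]
    nlinarith
  rw [norm_mul, norm_mul]
  calc ‖u‖ * ‖aeval u f‖ ≤ ‖u‖ * ‖aeval v f‖ := by gcongr
    _ < ‖v‖ * ‖aeval v f‖ := mul_lt_mul_of_pos_right h4 (norm_pos_iff.2 hv)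

theorem result : ¬ ∀ (T : ℝ[X] →ₗ[ℝ] ℝ[X]) (Q : ℕ → ℝ[X]), Represents Q T →
    {k | Q k ≠ 0}.Infinite → (∀ p, Hyperbolic p → Hyperbolic (T p)) →
    3 ≤ Module.rank ℝ (LinearMap.range T) → IsMonotoneOp Q := by
  intro h
  have h1 := h TT QQ (fun f => rfl) ?_ ?_ ?_ 0
  · have e0 : QQ 0 = X := by simp [QQ]
    have e1 : QQ 1 = C (-1) := by simp [QQ]
    rw [zero_add, e0, e1, degree_X, degree_C (by norm_num)] at h1
    exact absurd (h1 X_ne_zero) (by norm_num)
  · apply Set.infinite_of_injective_forall_mem (f := fun j : ℕ => 4 * j)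
    · intro a b hab; simpa using hab
    · intro j
      simp only [Set.mem_ofPred_eq, QQ, pow_mul, Complex.I_pow_four, one_pow]
      intro h0
      have := congrArg (eval 1) h0
      simp [Nat.factorial_ne_zero] at this
  · rintro p (rfl | hp)
    · left; simp
    · right
      intro z hz
      change aeval z (T0 p) = 0 at hz
      rw [T0_eval] at hz
      have e : (z + Complex.I) * aeval (z + Complex.I) p
          = -((z - Complex.I) * aeval (z - Complex.I) p) := by linear_combination 2 * hz
      have e2 := congrArg norm e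
      rw [norm_neg] at e2
      rcases lt_trichotomy z.im 0 with h2 | h2 | h2
      · have := key p hp (z + Complex.I) (z - Complex.I) (by simp) (by simp; nlinarith)
        linarith
      · exact h2
      · have := key p hp (z - Complex.I) (z + Complex.I) (by simp) (by simp; nlinarith)
        linarith
  · have hli : LinearIndependent ℝ (fun i : Fin 3 =>
        (⟨TT (X ^ (i : ℕ)), LinearMap.mem_range_self _ _⟩ : LinearMap.range TT)) := by
      rw [Fintype.linearIndependent_iff]
      intro g hg
      have h2 := congrArg Subtype.val hg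
      simp only [Fin.sum_univ_three, Submodule.coe_add, Submodule.coe_smul, Submodule.coe_zero]
        at h2
      have h3 : ∀ z : ℂ, (g 0 : ℂ) * z + g 1 * (z ^ 2 - 1) + g 2 * (z ^ 3 - 3 * z) = 0 := by
        intro z
        have := congrArg (aeval z) h2
        change aeval z (g 0 • T0 _ + g 1 • T0 _ + g 2 • T0 _) = _ at this
        simp only [map_add, map_smul, T0_eval, Complex.real_smul] at this
        simp at this
        linear_combination this - (g 1 + 3 * g 2 * z) * Complex.I_mul_I
      have a0 := h3 0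
      have a1 := h3 1
      have a2 := h3 2
      have b1 : (g 1 : ℂ) = 0 := by linear_combination -a0
      have b2 : (g 2 : ℂ) = 0 := by linear_combination (a2 - 2 * a1 - 3 * b1) / 6
      have b0 : (g 0 : ℂ) = 0 := by linear_combination a1 + 2 * b2
      intro i
      fin_cases i
      · exact_mod_cast b0
      · exact_mod_cast b1
      · exact_mod_cast b2
    simpa using hli.cardinal_le_rank

end Pool.Agent.Results.MP_6bb0fd_an.Counter
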